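import Pool.Agent.H88.MC.Targets

/-!
Module C4: graphs with few 4-cycles satisfy the spectral condition.
-/

namespace Pool.Agent.H4.E0

open Finset Pool.Agent.H88.MC

/-- spectral theorem for real symmetric matrices, elementary form -/
theorem c4_spectral {n : ℕ} (M : Matrix (Fin n) (Fin n) ℝ) (hM : ∀ u v, M u v = M v u) :
    ∃ (μ : Fin n → ℝ) (B : Fin n → Fin n → ℝ),
      (∀ i j, ∑ v, B i v * B j v = if i = j then 1 else 0) ∧
      (∀ i u, ∑ v, M u v * B i v = μ i * B i u) ∧
      (∑ i, μ i = ∑ v, M v v) ∧ (∑ i, μ i ^ 2 = ∑ u, ∑ v, M u v ^ 2) := by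
  have hH : M.IsHermitian := by
    unfold Matrix.IsHermitian
    ext u v
    rw [Matrix.conjTranspose_apply, star_trivial]
    exact hM v u
  have hE : ∀ i u, ∑ v, M u v * (hH.eigenvectorBasis i).ofLp v =
      hH.eigenvalues i * (hH.eigenvectorBasis i).ofLp u := by
    intro i u
    have h1 := congrFun (hH.mulVec_eigenvectorBasis i) u
    exact h1
  have hO : ∀ i j, ∑ v, (hH.eigenvectorBasis i).ofLp v * (hH.eigenvectorBasis j).ofLp v =
      if i = j then 1 else 0 := by
    intro i j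
    have h1 := orthonormal_iff_ite.1 hH.eigenvectorBasis.orthonormal i j
    rw [← h1, PiLp.inner_apply]
    refine sum_congr rfl (fun v _ => ?_)
    exact mul_comm _ _
  refine ⟨hH.eigenvalues, fun i v => (hH.eigenvectorBasis i).ofLp v, hO, hE, ?_, ?_⟩
  · have h1 := hH.trace_eq_sum_eigenvalues
    exact h1.symm
  · have h1 : ∀ i, hH.eigenvalues i ^ 2 =
        ∑ u, (∑ v, M u v * (hH.eigenvectorBasis i).ofLp v) ^ 2 := by
      intro i
      rw [sum_congr rfl (fun u _ => by rw [hE i u, mul_pow]), ← mul_sum]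
      have h2 := hO i i
      rw [if_pos rfl] at h2
      rw [sum_congr rfl (fun u _ => sq ((hH.eigenvectorBasis i).ofLp u)), h2, mul_one]
    rw [sum_congr rfl (fun i _ => h1 i), sum_comm]
    refine sum_congr rfl (fun u _ => ?_)
    have h3 := hH.eigenvectorBasis.sum_sq_inner_right (WithLp.toLp 2 (M u))
    rw [EuclideanSpace.real_norm_sq_eq] at h3
    rw [← h3]
    refine sum_congr rfl (fun i _ => ?_)
    rw [PiLp.inner_apply]
    rfl

open scoped Classical in
/-- few 4-cycles -/
theorem pf_c4 : T_C4 := by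
  intro C hC
  refine ⟨1 / (16 * C ^ 3), by positivity, ?_⟩
  intro n G h1 h2
  have hC0 : 0 < C := by linarith
  obtain ⟨s, hs⟩ : ∃ s : Fin n → ℝ, ∀ v, s v = Real.sqrt (1 + dg G v) := ⟨_, fun v => rfl⟩
  have hs2 : ∀ v, s v ^ 2 = 1 + dg G v := by
    intro v
    rw [hs v, Real.sq_sqrt (by positivity)]
  have hs0 : ∀ v, 0 < s v := by
    intro v
    rw [hs v]
    exact Real.sqrt_pos.2 (by positivity)
  obtain ⟨M, hMd⟩ : ∃ M : Matrix (Fin n) (Fin n) ℝ, ∀ u v,
      M u v = (#(nb G u ∩ nb G v) : ℝ) / (s u * s v) := ⟨fun u v => _, fun u v => rfl⟩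
  have hMs : ∀ u v, M u v = M v u := by
    intro u v
    rw [hMd, hMd, inter_comm, mul_comm]
  obtain ⟨μ, B, hO, hE, hT1, hT2⟩ := c4_spectral M hMs
  -- quadratic form of `M`
  have hadj : ∀ u v, u ∈ nb G v ↔ v ∈ nb G u := by
    intro u v
    unfold nb
    simp only [mem_filter, mem_univ, true_and]
    exact G.adj_comm v u
  have hcard : ∀ u v, (#(nb G u ∩ nb G v) : ℝ) =
      ∑ w, (if u ∈ nb G w then (1 : ℝ) else 0) * (if v ∈ nb G w then (1 : ℝ) else 0) := by
    intro u v
    have : nb G u ∩ nb G v = univ.filter (fun w => u ∈ nb G w ∧ v ∈ nb G w) := by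
      ext w
      rw [mem_inter, mem_filter, hadj w u, hadj w v]
      simp
    rw [this, card_eq_sum_ones, sum_filter]
    push_cast
    refine sum_congr rfl (fun w _ => ?_)
    by_cases h3 : u ∈ nb G w <;> by_cases h4 : v ∈ nb G w <;> simp [h3, h4]
  have hqf : ∀ z : Fin n → ℝ, ∑ u, ∑ v, M u v * z u * z v =
      ∑ w, (∑ u ∈ nb G w, z u / s u) ^ 2 := by
    intro z
    have h3 : ∀ w, (∑ u ∈ nb G w, z u / s u) ^ 2 =
        ∑ u, ∑ v, ((if u ∈ nb G w then (1 : ℝ) else 0) * (if v ∈ nb G w then (1 : ℝ) else 0)) *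
          (z u / s u * (z v / s v)) := by
      intro w
      have h4 : ∑ u ∈ nb G w, z u / s u =
          ∑ u, (if u ∈ nb G w then (1 : ℝ) else 0) * (z u / s u) := by
        simp only [ite_mul, one_mul, zero_mul]
        rw [sum_ite_mem, univ_inter]
      rw [h4, sq, sum_mul_sum]
      refine sum_congr rfl (fun u _ => sum_congr rfl (fun v _ => ?_))
      ring
    rw [sum_congr rfl (fun w _ => h3 w)]
    symm
    rw [sum_comm]
    refine sum_congr rfl (fun u _ => ?_)
    rw [sum_comm]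
    refine sum_congr rfl (fun v _ => ?_)
    rw [← sum_mul, ← hcard, hMd]
    have := (hs0 u).ne'
    have := (hs0 v).ne'
    field_simp
  -- eigenvalues are nonnegative
  have hμ0 : ∀ i, 0 ≤ μ i := by
    intro i
    have h3 : μ i = ∑ u, ∑ v, M u v * B i u * B i v := by
      have h4 : ∀ u, ∑ v, M u v * B i u * B i v = μ i * (B i u * B i u) := by
        intro u
        have h5 := hE i u
        calc ∑ v, M u v * B i u * B i v = B i u * ∑ v, M u v * B i v := by
              rw [mul_sum]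
              exact sum_congr rfl (fun v _ => by ring)
          _ = _ := by rw [h5]; ring
      rw [sum_congr rfl (fun u _ => h4 u), ← mul_sum, hO i i, if_pos rfl, mul_one]
    rw [h3, hqf]
    exact sum_nonneg (fun w _ => sq_nonneg _)
  have hne : ∀ v, (1 : ℝ) + dg G v ≠ 0 := fun v => by positivity
  -- trace
  have hT1' : (n : ℝ) / (2 * C) ≤ ∑ i, μ i := by
    rw [hT1]
    have h3 : ∀ v, (if 0 < dg G v then (1 : ℝ) / 2 else 0) ≤ M v v := by
      intro v
      rw [hMd, inter_self, ← sq, hs2]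
      have h4 : (#(nb G v) : ℝ) = dg G v := rfl
      rw [h4]
      split_ifs with h5
      · have h6 : (1 : ℝ) ≤ dg G v := by exact_mod_cast h5
        rw [div_le_div_iff₀ (by norm_num) (by positivity)]
        linarith
      · positivity
    have h4 : (∑ v, (if 0 < dg G v then (1 : ℝ) / 2 else 0)) = #{v | 0 < dg G v} / 2 := by
      rw [← sum_filter, sum_const, nsmul_eq_mul]
      ring
    have h5 := sum_le_sum (fun v (_ : v ∈ (univ : Finset (Fin n))) => h3 v)
    rw [h4] at h5
    refine le_trans ?_ h5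
    rw [div_le_div_iff₀ (by positivity) (by norm_num)]
    linarith
  -- trace of the square
  have hT2' : ∑ i, μ i ^ 2 ≤ C * n := by
    rw [hT2]
    refine le_trans (le_of_eq ?_) h2
    refine sum_congr rfl (fun u _ => sum_congr rfl (fun v _ => ?_))
    rw [hMd, div_pow, mul_pow, hs2, hs2]
  obtain ⟨I, hI⟩ : ∃ I : Finset (Fin n), ∀ i, i ∈ I ↔ 1 / (4 * C) ≤ μ i :=
    ⟨univ.filter (fun i => 1 / (4 * C) ≤ μ i), fun i => by simp⟩
  have hsumI : (n : ℝ) / (4 * C) ≤ ∑ i ∈ I, μ i := by
    have h3 : ∑ i, μ i = ∑ i ∈ I, μ i + ∑ i ∈ Iᶜ, μ i := (sum_add_sum_compl I μ).symm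
    have h4 : ∑ i ∈ Iᶜ, μ i ≤ ∑ i ∈ Iᶜ, 1 / (4 * C) := by
      refine sum_le_sum (fun i hi => ?_)
      have : ¬ (1 / (4 * C) ≤ μ i) := fun h => (mem_compl.1 hi) ((hI i).2 h)
      linarith
    have h5 : ∑ i ∈ Iᶜ, 1 / (4 * C) ≤ (n : ℝ) / (4 * C) := by
      rw [sum_const, nsmul_eq_mul]
      have h6 : (#Iᶜ : ℝ) ≤ n := by
        have := card_le_univ Iᶜ
        rw [Fintype.card_fin] at this
        exact_mod_cast this
      calc (#Iᶜ : ℝ) * (1 / (4 * C)) ≤ n * (1 / (4 * C)) :=
            mul_le_mul_of_nonneg_right h6 (by positivity)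
        _ = _ := by ring
    have h7 : (n : ℝ) / (2 * C) = n / (4 * C) + n / (4 * C) := by
      field_simp
      ring
    linarith
  have hcardI : 1 / (16 * C ^ 3) * n ≤ #I := by
    rcases Nat.eq_zero_or_pos n with h0 | h0
    · subst h0
      simp
    have hn0 : (0 : ℝ) < n := by exact_mod_cast h0
    have h3 : (∑ i ∈ I, μ i) ^ 2 ≤ #I * ∑ i ∈ I, μ i ^ 2 := sq_sum_le_card_mul_sum_sq
    have h4 : ∑ i ∈ I, μ i ^ 2 ≤ ∑ i, μ i ^ 2 :=
      sum_le_sum_of_subset_of_nonneg (subset_univ _) (fun i _ _ => sq_nonneg _)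
    have h5 : ((n : ℝ) / (4 * C)) ^ 2 ≤ #I * (C * n) := by
      calc ((n : ℝ) / (4 * C)) ^ 2 ≤ (∑ i ∈ I, μ i) ^ 2 := pow_le_pow_left₀ (by positivity) hsumI 2
        _ ≤ _ := h3
        _ ≤ #I * (C * n) := mul_le_mul_of_nonneg_left (h4.trans hT2') (Nat.cast_nonneg _)
    rw [div_pow, div_le_iff₀ (by positivity)] at h5
    have h6 : (n : ℝ) * n ≤ (#I * (16 * C ^ 3)) * n := by
      calc (n : ℝ) * n = n ^ 2 := by ring
        _ ≤ _ := h5
        _ = _ := by ring
    have h7 : (n : ℝ) ≤ #I * (16 * C ^ 3) := le_of_mul_le_mul_right h6 hn0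
    rw [one_div, inv_mul_le_iff₀ (by positivity)]
    linarith
  -- the subspace
  let T : (I → ℝ) →ₗ[ℝ] (Fin n → ℝ) :=
    { toFun := fun a v => (∑ i : I, a i * B i v) / s v
      map_add' := by
        intro a a'
        ext v
        simp only [Pi.add_apply, add_mul, sum_add_distrib, add_div]
      map_smul' := by
        intro t a
        ext v
        simp only [Pi.smul_apply, smul_eq_mul, RingHom.id_apply, mul_assoc, ← mul_sum, mul_div_assoc] }
  have hTd : ∀ a v, T a v = (∑ i : I, a i * B i v) / s v := fun a v => rfl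
  -- norms
  have hN1 : ∀ a : I → ℝ, ∑ v, (∑ i : I, a i * B i v) ^ 2 = ∑ i, a i ^ 2 := by
    intro a
    have h3 : ∀ v, (∑ i : I, a i * B i v) ^ 2 =
        ∑ i : I, ∑ j : I, a i * a j * (B i v * B j v) := by
      intro v
      rw [sq, sum_mul_sum]
      exact sum_congr rfl (fun i _ => sum_congr rfl (fun j _ => by ring))
    rw [sum_congr rfl (fun v _ => h3 v), sum_comm]
    refine sum_congr rfl (fun i _ => ?_)
    rw [sum_comm]
    have h4 : ∀ j : I, ∑ v, a i * a j * (B i v * B j v) = if i = j then a i ^ 2 else 0 := by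
      intro j
      rw [← mul_sum, hO]
      by_cases hij : i = j
      · rw [if_pos hij, if_pos (by rw [hij]), hij]
        ring
      · rw [if_neg hij, if_neg (fun h => hij (Subtype.ext h)), mul_zero]
    rw [sum_congr rfl (fun j _ => h4 j), sum_ite_eq, if_pos (mem_univ i)]
  have hN2 : ∀ a : I → ℝ, ∑ u, ∑ v, M u v * (∑ i : I, a i * B i u) * (∑ i : I, a i * B i v) =
      ∑ i : I, μ i * a i ^ 2 := by
    intro a
    have h3 : ∀ u, ∑ v, M u v * (∑ i : I, a i * B i u) * (∑ i : I, a i * B i v) =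
        ∑ i : I, ∑ j : I, a i * a j * μ j * (B i u * B j u) := by
      intro u
      calc ∑ v, M u v * (∑ i : I, a i * B i u) * (∑ i : I, a i * B i v) =
            (∑ i : I, a i * B i u) * ∑ j : I, a j * ∑ v, M u v * B j v := by
            rw [mul_sum, sum_congr rfl (fun j (_ : j ∈ (univ : Finset I)) =>
              (by rw [mul_sum, mul_sum] : (∑ i : I, a i * B i u) * (a j * ∑ v, M u v * B j v) =
                ∑ v, (∑ i : I, a i * B i u) * (a j * (M u v * B j v)))), sum_comm]
            refine sum_congr rfl (fun v _ => ?_)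
            rw [mul_sum]
            exact sum_congr rfl (fun j _ => by ring)
        _ = ∑ i : I, ∑ j : I, a i * a j * μ j * (B i u * B j u) := by
            rw [sum_mul_sum]
            refine sum_congr rfl (fun i _ => sum_congr rfl (fun j _ => ?_))
            rw [hE]
            ring
    rw [sum_congr rfl (fun u _ => h3 u), sum_comm]
    refine sum_congr rfl (fun i _ => ?_)
    rw [sum_comm]
    have h4 : ∀ j : I, ∑ u, a i * a j * μ j * (B i u * B j u) =
        if i = j then μ i * a i ^ 2 else 0 := by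
      intro j
      rw [← mul_sum, hO]
      by_cases hij : i = j
      · rw [if_pos hij, if_pos (by rw [hij]), hij]
        ring
      · rw [if_neg hij, if_neg (fun h => hij (Subtype.ext h)), mul_zero]
    rw [sum_congr rfl (fun j _ => h4 j), sum_ite_eq, if_pos (mem_univ i)]
  have hinj : Function.Injective T := by
    rw [← LinearMap.ker_eq_bot, LinearMap.ker_eq_bot']
    intro a ha
    have h3 : ∀ v, ∑ i : I, a i * B i v = 0 := by
      intro v
      have h4 := congrFun ha v
      rw [hTd, Pi.zero_apply, div_eq_zero_iff] at h4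
      exact h4.resolve_right (hs0 v).ne'
    have h5 := hN1 a
    rw [sum_congr rfl (fun v _ => by rw [h3 v])] at h5
    have h6 : ∑ i, a i ^ 2 = 0 := by
      rw [← h5]
      simp
    ext i
    have h7 := (sum_eq_zero_iff_of_nonneg (fun i _ => sq_nonneg (a i))).1 h6 i (mem_univ i)
    exact pow_eq_zero_iff (two_ne_zero) |>.1 h7
  refine ⟨LinearMap.range T, ?_, ?_⟩
  · rw [LinearMap.finrank_range_of_inj hinj, Module.finrank_fintype_fun_eq_card, Fintype.card_coe]
    exact hcardI
  · rintro w ⟨a, rfl⟩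
    have h3 : ∑ v, (1 + dg G v : ℝ) * T a v ^ 2 = ∑ i, a i ^ 2 := by
      rw [← hN1]
      refine sum_congr rfl (fun v _ => ?_)
      rw [hTd, div_pow, hs2]
      have := hne v
      field_simp
    have h4 : ∑ v, (∑ u ∈ nb G v, T a u) ^ 2 = ∑ i : I, μ i * a i ^ 2 := by
      rw [← hN2, hqf]
      rfl
    rw [h3, h4, mul_sum]
    refine sum_le_sum (fun i _ => mul_le_mul_of_nonneg_right ?_ (sq_nonneg _))
    have h5 := (hI i.1).1 i.2
    refine le_trans ?_ h5
    rw [div_le_div_iff₀ (by positivity) (by positivity)]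
    have h6 : (1 : ℝ) ≤ C ^ 2 := one_le_pow₀ hC
    have h7 : C * 1 ≤ C * C ^ 2 := mul_le_mul_of_nonneg_left h6 hC0.le
    nlinarith

end Pool.Agent.H4.E0
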