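import Pool.Agent.H88.MC.Targets

/-!
Module DT: deterministic part of the existence of a good hidden set.
-/

set_option autoImplicit false

namespace Pool.Agent.H4.E0

open Finset Pool.Agent.H88.MC

theorem real_lower {r k p a X K : ℝ} (hr : 0 ≤ r) (hk : 1 ≤ k) (hp0 : 0 ≤ p) (hp : p ≤ 1 / 4)
    (h1 : r ≤ k ^ 2 * a ^ 2) (h2 : X ^ 2 ≤ r / (16 * k ^ 2)) (hK : K = (1 - p) * a - X) :
    r ≤ 4 * k ^ 2 * K ^ 2 := by
  have hk0 : 0 < k := by linarith
  obtain ⟨s, hs⟩ : ∃ s, s = Real.sqrt r := ⟨_, rfl⟩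
  have hs0 : 0 ≤ s := hs ▸ Real.sqrt_nonneg r
  have hsr : s ^ 2 = r := by rw [hs, Real.sq_sqrt hr]
  have h3 : s ≤ k * |a| := by
    have h4 : s ^ 2 ≤ (k * |a|) ^ 2 := by rw [hsr, mul_pow, sq_abs]; exact h1
    exact le_of_sq_le_sq h4 (by positivity)
  have h5 : 4 * k * |X| ≤ s := by
    have h6 : (4 * k * |X|) ^ 2 ≤ s ^ 2 := by
      rw [hsr, mul_pow, sq_abs, mul_pow]
      rw [le_div_iff₀ (by positivity)] at h2
      linarith
    exact le_of_sq_le_sq h6 hs0
  have h7 : (1 - p) * |a| - |X| ≤ |K| := by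
    have h8 : |(1 - p) * a| - |X| ≤ |(1 - p) * a - X| := abs_sub_abs_le_abs_sub _ _
    rw [abs_mul, abs_of_nonneg (by linarith : (0 : ℝ) ≤ 1 - p)] at h8
    rw [hK]
    exact h8
  have h9 : 3 / 4 * |a| ≤ (1 - p) * |a| := mul_le_mul_of_nonneg_right (by linarith) (abs_nonneg a)
  have h10 : s ≤ 2 * k * |K| := by
    have h11 : 3 / 4 * |a| - |X| ≤ |K| := by linarith
    have h12 : k * (3 / 4 * |a| - |X|) ≤ k * |K| := mul_le_mul_of_nonneg_left h11 hk0.le
    nlinarith
  have h13 : s ^ 2 ≤ (2 * k * |K|) ^ 2 := pow_le_pow_left₀ hs0 h10 2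
  rw [hsr, mul_pow, sq_abs, mul_pow] at h13
  linarith

theorem real_upper {r k p a X K : ℝ} (hr : 0 ≤ r) (hk : 1 ≤ k) (hp0 : 0 ≤ p) (hp : p ≤ 1 / 4)
    (h1 : k ^ 2 * a ^ 2 ≤ r) (h2 : X ^ 2 ≤ r / k ^ 2) (hK : K = (1 - p) * a - X) :
    k ^ 2 * K ^ 2 ≤ 4 * r := by
  have hk0 : 0 < k := by linarith
  obtain ⟨s, hs⟩ : ∃ s, s = Real.sqrt r := ⟨_, rfl⟩
  have hs0 : 0 ≤ s := hs ▸ Real.sqrt_nonneg r
  have hsr : s ^ 2 = r := by rw [hs, Real.sq_sqrt hr]
  have h3 : k * |a| ≤ s := by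
    have h4 : (k * |a|) ^ 2 ≤ s ^ 2 := by rw [hsr, mul_pow, sq_abs]; exact h1
    exact le_of_sq_le_sq h4 hs0
  have h5 : k * |X| ≤ s := by
    have h6 : (k * |X|) ^ 2 ≤ s ^ 2 := by
      rw [hsr, mul_pow, sq_abs]
      rw [le_div_iff₀ (by positivity)] at h2
      linarith
    exact le_of_sq_le_sq h6 hs0
  have h7 : |K| ≤ |a| + |X| := by
    have h8 : |(1 - p) * a - X| ≤ |(1 - p) * a| + |X| := abs_sub _ _
    rw [abs_mul, abs_of_nonneg (by linarith : (0 : ℝ) ≤ 1 - p)] at h8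
    have h9 : (1 - p) * |a| ≤ 1 * |a| := mul_le_mul_of_nonneg_right (by linarith) (abs_nonneg a)
    rw [hK]
    linarith
  have h10 : k * |K| ≤ 2 * s := by
    have h12 : k * |K| ≤ k * (|a| + |X|) := mul_le_mul_of_nonneg_left h7 hk0.le
    linarith
  have h13 : (k * |K|) ^ 2 ≤ (2 * s) ^ 2 := pow_le_pow_left₀ (by positivity) h10 2
  rw [mul_pow, sq_abs, mul_pow, hsr] at h13
  linarith

theorem sgr_eq {n : ℕ} (y : Fin n → Bool) (v : Fin n) : sgr y v = ((sg (y v) : ℤ) : ℝ) := by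
  unfold sgr sg
  cases y v <;> simp

theorem kk_eq {n : ℕ} (G : SimpleGraph (Fin n)) (U : Finset (Fin n)) (p : ℝ)
    (y ξ : Fin n → Bool) (hξ : ∀ v, v ∉ U → ξ v = y v) (v : Fin n) :
    ((kk G U ξ v : ℤ) : ℝ) = (1 - p) * ((ay G y v : ℤ) : ℝ) -
      ∑ u ∈ nb G v, ((if u ∈ U then (1 : ℝ) else 0) - p) * sgr y u := by
  classical
  have h1 : ((kk G U ξ v : ℤ) : ℝ) = ∑ u ∈ nb G v, (if u ∈ U then 0 else sgr y u) := by
    unfold kk
    push_cast
    rw [← sum_filter_not_add_sum_filter (nb G v) (fun u => u ∈ U)]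
    rw [sum_ite_of_false, sum_ite_of_true, sum_const_zero, add_zero]
    · have : (nb G v).filter (fun u => u ∉ U) = nb G v \ U := by
        ext u
        simp [mem_sdiff]
      rw [this]
      refine sum_congr rfl fun u hu => ?_
      rw [sgr_eq, hξ u (mem_sdiff.1 hu).2]
    · intro u hu
      exact (mem_filter.1 hu).2
    · intro u hu
      exact (mem_filter.1 hu).2
  have h2 : ((ay G y v : ℤ) : ℝ) = ∑ u ∈ nb G v, sgr y u := by
    unfold ay
    push_cast
    exact sum_congr rfl fun u _ => (sgr_eq y u).symm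
  rw [h1, h2, mul_sum, ← sum_sub_distrib]
  refine sum_congr rfl fun u _ => ?_
  split_ifs <;> ring

theorem pf_dt : T_DT := by
  classical
  intro n U p k D G y X S hk hD hDp hp hloc hX hS hA hB ξ υ hξ hυ
  have hk' : (1 : ℝ) ≤ k := by exact_mod_cast hk
  have hk0 : (0 : ℝ) < k := by linarith
  have hD' : (1 : ℝ) ≤ D := by exact_mod_cast hD
  have hD0 : (0 : ℝ) < D := by linarith
  have hp0 : 0 ≤ p := le_trans (by positivity) hDp
  have hDp' : 1 ≤ D * p := by
    rw [div_le_iff₀ hD0] at hDp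
    linarith
  have hK : ∀ v, ((kk G U ξ v : ℤ) : ℝ) = (1 - p) * ((ay G y v : ℤ) : ℝ) - X v := fun v => by
    rw [hX]
    exact kk_eq G U p y ξ hξ v
  have hr : ∀ v, (0 : ℝ) ≤ 1 + dg G v := fun v => by positivity
  by_cases hc : (n : ℝ) ≤ k * #S
  · left
    obtain ⟨hA1, hA2, hA3⟩ := hA hc
    have hsub : S ∩ U ⊆ PP k G U ξ ∪
        {v ∈ U | (1 + dg G v : ℝ) / (16 * k ^ 2) < X v ^ 2} := by
      intro v hv
      obtain ⟨hv1, hv2⟩ := mem_inter.1 hv
      rw [mem_union]
      by_cases hx : (1 + dg G v : ℝ) / (16 * k ^ 2) < X v ^ 2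
      · right
        exact mem_filter.2 ⟨hv2, hx⟩
      · left
        unfold PP
        refine mem_filter.2 ⟨hv2, ?_⟩
        have h1 : ((1 + dg G v : ℤ) : ℝ) ≤ ((k ^ 2 * ay G y v ^ 2 : ℤ) : ℝ) := by
          exact_mod_cast (hS v).1 hv1
        push_cast at h1
        have h2 := real_lower (hr v) hk' hp0 hp h1 (not_lt.1 hx) (hK v)
        exact_mod_cast h2
    have hcard : (#(S ∩ U) : ℝ) ≤ #(PP k G U ξ) + p * n / (4 * k) := by
      have h1 := (card_le_card hsub).trans (card_union_le _ _)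
      have h2 : (#(S ∩ U) : ℝ) ≤ #(PP k G U ξ) +
          #{v ∈ U | (1 + dg G v : ℝ) / (16 * k ^ 2) < X v ^ 2} := by exact_mod_cast h1
      linarith
    have hPP : p * n / (4 * k) ≤ #(PP k G U ξ) := by
      have h1 : p * n / (2 * k) ≤ p * #S / 2 := by
        rw [div_le_div_iff₀ (by positivity) (by norm_num)]
        have h2 : p * n ≤ p * (k * #S) := mul_le_mul_of_nonneg_left hc hp0
        linarith
      have h3 : p * n / (2 * k) = 2 * (p * n / (4 * k)) := by
        field_simp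
        ring
      linarith
    refine ⟨?_, ?_⟩
    · have h1 : p * n ≤ 4 * k * #(PP k G U ξ) := by
        rw [div_le_iff₀ (by positivity)] at hPP
        linarith
      have h2 : (n : ℝ) ≤ 4 * k * D * #(PP k G U ξ) := by
        calc (n : ℝ) ≤ (D * p) * n := le_mul_of_one_le_left (Nat.cast_nonneg n) hDp'
          _ = D * (p * n) := by ring
          _ ≤ D * (4 * k * #(PP k G U ξ)) := mul_le_mul_of_nonneg_left h1 hD0.le
          _ = _ := by ring
      exact_mod_cast h2
    · have hsub2 : (PP k G U ξ).filter (fun v : Fin n => v.1 < n ∧ υ v ≠ pred G U ξ v) ⊆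
          {v ∈ U | (1 + dg G v : ℝ) / (4 * k ^ 2) ≤ X v ^ 2} := by
        intro v hv
        obtain ⟨hv1, -, hv2⟩ := mem_filter.1 hv
        unfold PP at hv1
        obtain ⟨hv3, hv4⟩ := mem_filter.1 hv1
        refine mem_filter.2 ⟨hv3, ?_⟩
        have hv5 : (1 + dg G v : ℝ) ≤ 4 * k ^ 2 * ((kk G U ξ v : ℤ) : ℝ) ^ 2 := by
          exact_mod_cast hv4
        rw [hυ v hv3] at hv2
        have hne : kk G U ξ v ≠ 0 := by
          intro h0
          rw [h0] at hv4
          simp at hv4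
          omega
        have hpos : 0 < sg (y v) * kk G U ξ v := by
          unfold pred at hv2
          cases hy : y v
          · rw [hy] at hv2
            have h1 : kk G U ξ v < 0 := by
              by_contra hcon
              rw [decide_eq_false hcon] at hv2
              exact hv2 rfl
            unfold sg
            simp only [Bool.false_eq_true, if_false]
            linarith
          · rw [hy] at hv2
            have h1 : ¬ kk G U ξ v < 0 := by
              intro hcon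
              rw [decide_eq_true hcon] at hv2
              exact hv2 rfl
            unfold sg
            simp only [if_true]
            omega
        have hsq : ((sg (y v) : ℤ) : ℝ) ^ 2 = 1 := by
          unfold sg
          cases y v <;> simp
        have hpos' : 0 < ((sg (y v) : ℤ) : ℝ) * ((kk G U ξ v : ℤ) : ℝ) := by exact_mod_cast hpos
        have hloc' : ((sg (y v) : ℤ) : ℝ) * ((ay G y v : ℤ) : ℝ) ≤ 0 := by exact_mod_cast hloc v
        have h6 : ((sg (y v) : ℤ) : ℝ) * ((kk G U ξ v : ℤ) : ℝ) ≤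
            -(((sg (y v) : ℤ) : ℝ) * X v) := by
          rw [hK v]
          have : (1 - p) * (((sg (y v) : ℤ) : ℝ) * ((ay G y v : ℤ) : ℝ)) ≤ 0 :=
            mul_nonpos_of_nonneg_of_nonpos (by linarith) hloc'
          linarith
        have h7 : (((sg (y v) : ℤ) : ℝ) * ((kk G U ξ v : ℤ) : ℝ)) ^ 2 ≤
            (-(((sg (y v) : ℤ) : ℝ) * X v)) ^ 2 := pow_le_pow_left₀ hpos'.le h6 2
        rw [neg_sq, mul_pow, mul_pow, hsq, one_mul, one_mul] at h7
        rw [div_le_iff₀ (by positivity)]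
        have h8 : 4 * (k : ℝ) ^ 2 * ((kk G U ξ v : ℤ) : ℝ) ^ 2 ≤ 4 * (k : ℝ) ^ 2 * X v ^ 2 :=
          mul_le_mul_of_nonneg_left h7 (by positivity)
        linarith
      have h9 : (er k G U ξ υ n : ℝ) ≤ p * n / (40 * k) := by
        refine le_trans ?_ hA3
        unfold er
        exact_mod_cast card_le_card hsub2
      have h10 : 10 * (p * n / (40 * k)) = p * n / (4 * k) := by
        field_simp
        ring
      have h11 : (10 : ℝ) * er k G U ξ υ n ≤ #(PP k G U ξ) := by linarith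
      exact_mod_cast h11
  · right
    push Not at hc
    have hsub : (univ : Finset (Fin n)) ⊆ QQ k G U ξ ∪ (S ∪
        univ.filter (fun v => (1 + dg G v : ℝ) / k ^ 2 < X v ^ 2)) := by
      intro v _
      rw [mem_union, mem_union]
      by_cases hv : v ∈ S
      · exact Or.inr (Or.inl hv)
      by_cases hx : (1 + dg G v : ℝ) / k ^ 2 < X v ^ 2
      · exact Or.inr (Or.inr (mem_filter.2 ⟨mem_univ v, hx⟩))
      left
      unfold QQ
      refine mem_filter.2 ⟨mem_univ v, ?_⟩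
      have h1 : ((k ^ 2 * ay G y v ^ 2 : ℤ) : ℝ) ≤ ((1 + dg G v : ℤ) : ℝ) := by
        have h2 : ¬ ((1 + dg G v : ℤ) ≤ k ^ 2 * ay G y v ^ 2) := fun h => hv ((hS v).2 h)
        exact_mod_cast (not_le.1 h2).le
      push_cast at h1
      have h2 := real_upper (hr v) hk' hp0 hp h1 (not_lt.1 hx) (hK v)
      exact_mod_cast h2
    have h1 : (n : ℝ) ≤ #(QQ k G U ξ) + (#S + n / k) := by
      have h2 := (card_le_card hsub).trans
        ((card_union_le _ _).trans (add_le_add_right (card_union_le _ _) _))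
      rw [card_univ, Fintype.card_fin] at h2
      have h3 : (n : ℝ) ≤ #(QQ k G U ξ) + (#S +
          #{v | (1 + dg G v : ℝ) / k ^ 2 < X v ^ 2}) := by exact_mod_cast h2
      linarith
    unfold CB
    have h4 : (k : ℝ) * n ≤ 2 * n + k * #(QQ k G U ξ) := by
      have h5 : (k : ℝ) * n ≤ k * (#(QQ k G U ξ) + (#S + n / k)) :=
        mul_le_mul_of_nonneg_left h1 hk0.le
      have h6 : (k : ℝ) * (n / k) = n := by field_simp
      nlinarith
    exact_mod_cast h4

end Pool.Agent.H4.E0
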