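import Pool.Agent.H88.MC.Targets

/-!
Module EX: existence of a good hidden set for a locally optimal bipartition.
-/

namespace Pool.Agent.H4.E0

open Finset Pool.Agent.H88.MC

theorem ex_cnt_le {n : ℕ} (s : Finset (Fin n)) (P : Fin n → Prop) [DecidablePred P]
    (g : Fin n → ℝ) (hg : ∀ v, P v → 1 ≤ g v) (h0 : ∀ v, 0 ≤ g v) :
    (#(s.filter P) : ℝ) ≤ ∑ v, (if v ∈ s then (1 : ℝ) else 0) * g v := by
  calc (#(s.filter P) : ℝ) = ∑ v ∈ s.filter P, (1 : ℝ) := by simp
    _ ≤ ∑ v ∈ s.filter P, g v := sum_le_sum (fun v hv => hg v (mem_filter.1 hv).2)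
    _ ≤ ∑ v ∈ s, g v := sum_le_sum_of_subset_of_nonneg (filter_subset _ _) (fun v _ _ => h0 v)
    _ = ∑ v, (if v ∈ s then (1 : ℝ) else 0) * g v := by
      simp only [ite_mul, one_mul, zero_mul]
      rw [sum_ite_mem, univ_inter]

theorem ex_sgr_sq {n : ℕ} (y : Fin n → Bool) (u : Fin n) : sgr y u ^ 2 = 1 := by
  unfold sgr
  split_ifs <;> norm_num

theorem ex_not_mem_nb {n : ℕ} (G : SimpleGraph (Fin n)) (v : Fin n) : v ∉ nb G v := by
  unfold nb
  simp

theorem ex_frac {a b : ℝ} (hb : 0 < b) {m : ℕ} (hm : (m : ℝ) ≤ b) (ha : 0 ≤ a) :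
    a * (m / b) ≤ a :=
  mul_le_of_le_one_right ha ((div_le_one hb).2 hm)

theorem ex_sum_inU (hMO2 : T_MO2) {Ω : Type} [Fintype Ω] {n : ℕ} {U : Ω → Finset (Fin n)}
    {p : ℝ} (htw : TW U p) (hp0 : 0 ≤ p) (hp1 : p ≤ 1) (G : SimpleGraph (Fin n))
    (y : Fin n → Bool) (c : ℝ) (hc : 0 ≤ c) (P : Ω → Fin n → Prop) [∀ ω, DecidablePred (P ω)]
    (hP : ∀ ω v, P ω v → (1 + dg G v : ℝ) ≤
      c * (∑ u ∈ nb G v, ((if u ∈ U ω then (1 : ℝ) else 0) - p) * sgr y u) ^ 2) :
    ∑ ω, (#((U ω).filter (P ω)) : ℝ) ≤ c * p ^ 2 * n * Fintype.card Ω := by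
  have hr : ∀ v, (0 : ℝ) < 1 + dg G v := fun v => by positivity
  calc ∑ ω, (#((U ω).filter (P ω)) : ℝ) ≤ ∑ ω, ∑ v, (if v ∈ U ω then (1 : ℝ) else 0) *
        (c * (∑ u ∈ nb G v, ((if u ∈ U ω then (1 : ℝ) else 0) - p) * sgr y u) ^ 2 /
          (1 + dg G v)) := by
        refine sum_le_sum (fun ω _ => ex_cnt_le _ _ _ (fun v hv => ?_) (fun v => ?_))
        · rw [one_le_div (hr v)]
          exact hP ω v hv
        · exact div_nonneg (mul_nonneg hc (sq_nonneg _)) (hr v).le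
    _ = ∑ v, c / (1 + dg G v) * ∑ ω, (if v ∈ U ω then (1 : ℝ) else 0) *
        (∑ u ∈ nb G v, ((if u ∈ U ω then (1 : ℝ) else 0) - p) * sgr y u) ^ 2 := by
        rw [sum_comm]
        refine sum_congr rfl (fun v _ => ?_)
        rw [mul_sum]
        refine sum_congr rfl (fun ω _ => ?_)
        ring
    _ ≤ ∑ v : Fin n, c * p ^ 2 * Fintype.card Ω := by
        refine sum_le_sum (fun v _ => ?_)
        have h1 := hMO2 Ω n U p htw hp0 hp1 (nb G v) (sgr y) (ex_sgr_sq y) v (ex_not_mem_nb G v)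
        have h2 := mul_le_mul_of_nonneg_left h1 (div_nonneg hc (hr v).le)
        refine h2.trans ?_
        have h3 : c / (1 + dg G v) * (p ^ 2 * #(nb G v) * Fintype.card Ω) =
            (c * p ^ 2 * Fintype.card Ω) * (#(nb G v) / (1 + dg G v)) := by ring
        rw [h3]
        refine ex_frac (hr v) ?_ (by positivity)
        unfold dg
        linarith
    _ = _ := by
        rw [sum_const, card_univ, Fintype.card_fin, nsmul_eq_mul]
        ring

theorem ex_sum_all (hMO1 : T_MO1) {Ω : Type} [Fintype Ω] {n : ℕ} {U : Ω → Finset (Fin n)}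
    {p : ℝ} (htw : TW U p) (hp0 : 0 ≤ p) (hp1 : p ≤ 1) (G : SimpleGraph (Fin n))
    (y : Fin n → Bool) (c : ℝ) (hc : 0 ≤ c) (P : Ω → Fin n → Prop) [∀ ω, DecidablePred (P ω)]
    (hP : ∀ ω v, P ω v → (1 + dg G v : ℝ) ≤
      c * (∑ u ∈ nb G v, ((if u ∈ U ω then (1 : ℝ) else 0) - p) * sgr y u) ^ 2) :
    ∑ ω, (#(univ.filter (P ω)) : ℝ) ≤ c * p * n * Fintype.card Ω := by
  have hr : ∀ v, (0 : ℝ) < 1 + dg G v := fun v => by positivity
  calc ∑ ω, (#(univ.filter (P ω)) : ℝ) ≤ ∑ ω, ∑ v,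
        (if v ∈ (univ : Finset (Fin n)) then (1 : ℝ) else 0) *
        (c * (∑ u ∈ nb G v, ((if u ∈ U ω then (1 : ℝ) else 0) - p) * sgr y u) ^ 2 /
          (1 + dg G v)) := by
        refine sum_le_sum (fun ω _ => ex_cnt_le _ _ _ (fun v hv => ?_) (fun v => ?_))
        · rw [one_le_div (hr v)]
          exact hP ω v hv
        · exact div_nonneg (mul_nonneg hc (sq_nonneg _)) (hr v).le
    _ = ∑ v, c / (1 + dg G v) * ∑ ω,
        (∑ u ∈ nb G v, ((if u ∈ U ω then (1 : ℝ) else 0) - p) * sgr y u) ^ 2 := by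
        rw [sum_comm]
        refine sum_congr rfl (fun v _ => ?_)
        rw [mul_sum]
        refine sum_congr rfl (fun ω _ => ?_)
        rw [if_pos (mem_univ v)]
        ring
    _ ≤ ∑ v : Fin n, c * p * Fintype.card Ω := by
        refine sum_le_sum (fun v _ => ?_)
        have h1 := hMO1 Ω n U p htw hp0 hp1 (nb G v) (sgr y) (ex_sgr_sq y)
        have h2 := mul_le_mul_of_nonneg_left h1 (div_nonneg hc (hr v).le)
        refine h2.trans ?_
        have h3 : c / (1 + dg G v) * (p * #(nb G v) * Fintype.card Ω) =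
            (c * p * Fintype.card Ω) * (#(nb G v) / (1 + dg G v)) := by ring
        rw [h3]
        refine ex_frac (hr v) ?_ (by positivity)
        unfold dg
        linarith
    _ = _ := by
        rw [sum_const, card_univ, Fintype.card_fin, nsmul_eq_mul]
        ring

theorem ex_sum_gg {Ω : Type} [Fintype Ω] {n : ℕ} {U : Ω → Finset (Fin n)}
    {p : ℝ} (htw : TW U p) (hp0 : 0 ≤ p) (G : SimpleGraph (Fin n)) (k : ℕ) :
    ∑ ω, (#(univ.filter (fun v => 1 + dg G v < 4 * k ^ 3 * gg G (U ω) v)) : ℝ) ≤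
      4 * k ^ 3 * p * n * Fintype.card Ω := by
  have hr : ∀ v, (0 : ℝ) < 1 + dg G v := fun v => by positivity
  have hgg : ∀ ω v, (gg G (U ω) v : ℝ) = ∑ u ∈ nb G v, (if u ∈ U ω then (1 : ℝ) else 0) := by
    intro ω v
    unfold gg
    rw [sum_ite_mem, sum_const, nsmul_eq_mul, mul_one]
  calc ∑ ω, (#(univ.filter (fun v => 1 + dg G v < 4 * k ^ 3 * gg G (U ω) v)) : ℝ) ≤ ∑ ω, ∑ v,
        (if v ∈ (univ : Finset (Fin n)) then (1 : ℝ) else 0) *
        (4 * k ^ 3 * gg G (U ω) v / (1 + dg G v)) := by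
        refine sum_le_sum (fun ω _ => ex_cnt_le _ _ _ (fun v hv => ?_) (fun v => ?_))
        · rw [one_le_div (hr v)]
          exact_mod_cast hv.le
        · positivity
    _ = ∑ v, 4 * k ^ 3 / (1 + dg G v) * ∑ u ∈ nb G v, ∑ ω,
        (if u ∈ U ω then (1 : ℝ) else 0) := by
        rw [sum_comm]
        refine sum_congr rfl (fun v _ => ?_)
        rw [sum_comm, mul_sum]
        refine sum_congr rfl (fun ω _ => ?_)
        rw [if_pos (mem_univ v), hgg]
        ring
    _ ≤ ∑ v : Fin n, 4 * k ^ 3 * p * Fintype.card Ω := by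
        refine sum_le_sum (fun v _ => ?_)
        rw [sum_congr rfl (fun u _ => htw.one u), sum_const, nsmul_eq_mul]
        have h3 : 4 * (k : ℝ) ^ 3 / (1 + dg G v) * (#(nb G v) * (p * Fintype.card Ω)) =
            (4 * k ^ 3 * p * Fintype.card Ω) * (#(nb G v) / (1 + dg G v)) := by ring
        rw [h3]
        refine ex_frac (hr v) ?_ (by positivity)
        unfold dg
        linarith
    _ = _ := by
        rw [sum_const, card_univ, Fintype.card_fin, nsmul_eq_mul]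
        ring

/-- second moment of the size of the intersection with a fixed set -/
theorem ex_sum_card (hMO1 : T_MO1) {Ω : Type} [Fintype Ω] {n : ℕ} {U : Ω → Finset (Fin n)}
    {p : ℝ} (htw : TW U p) (hp0 : 0 ≤ p) (hp1 : p ≤ 1) (S : Finset (Fin n)) :
    ∑ ω, ((#(S ∩ U ω) : ℝ) - p * #S) ^ 2 ≤ p * #S * Fintype.card Ω := by
  have h1 := hMO1 Ω n U p htw hp0 hp1 S (fun _ => 1) (fun _ => by norm_num)
  refine le_trans (le_of_eq ?_) h1
  refine sum_congr rfl (fun ω _ => ?_)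
  have h2 : ∑ u ∈ S, ((if u ∈ U ω then (1 : ℝ) else 0) - p) * (1 : ℝ) =
      (#(S ∩ U ω) : ℝ) - p * #S := by
    simp only [mul_one]
    rw [sum_sub_distrib, sum_ite_mem, sum_const, nsmul_eq_mul, mul_one, sum_const,
      nsmul_eq_mul]
    ring
  rw [h2]

/-- a number whose distance from `a` is at most `a / 2` is at least `a / 2` -/
theorem ex_half {x a : ℝ} (ha : 0 ≤ a) (h : (x - a) ^ 2 ≤ (a / 2) ^ 2) : a / 2 ≤ x := by
  have h1 := abs_le_of_sq_le_sq' h (by linarith)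
  linarith [h1.1]

/-- the sum of the six quotients -/
theorem ex_sum6 {k p n s : ℝ} (hk : 1 ≤ k) (hp : 0 < p) (hp4 : 4000 * k ^ 4 * p ≤ 1)
    (hn : 16 * k ≤ p * n) (hs : n ≤ k * s) :
    (p * n) / (p * n / 2) ^ 2 + (4 * k ^ 3 * p * n) / (n / (2 * k)) +
      (p * s) / (p * s / 2) ^ 2 + (16 * k ^ 2 * p ^ 2 * n) / (p * n / (4 * k)) +
      (4 * k ^ 2 * p ^ 2 * n) / (p * n / (40 * k)) + (k ^ 2 * p * n) / (n / k) < 1 := by
  have hk0 : 0 < k := by linarith
  have hpn : 0 < p * n := by linarith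
  have hn0 : 0 < n := pos_of_mul_pos_right (by linarith : 0 < p * n) hp.le
  have hks : 0 < k * s := by linarith
  have hs0 : 0 < s := pos_of_mul_pos_right hks hk0.le
  have e1 : (p * n) / (p * n / 2) ^ 2 = 4 / (p * n) := by
    field_simp
    ring
  have e2 : (4 * k ^ 3 * p * n) / (n / (2 * k)) = 8 * k ^ 4 * p := by
    field_simp
    ring
  have e3 : (p * s) / (p * s / 2) ^ 2 = 4 / (p * s) := by
    field_simp
    ring
  have e4 : (16 * k ^ 2 * p ^ 2 * n) / (p * n / (4 * k)) = 64 * k ^ 3 * p := by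
    field_simp
    ring
  have e5 : (4 * k ^ 2 * p ^ 2 * n) / (p * n / (40 * k)) = 160 * k ^ 3 * p := by
    field_simp
    ring
  have e6 : (k ^ 2 * p * n) / (n / k) = k ^ 3 * p := by
    field_simp
  rw [e1, e2, e3, e4, e5, e6]
  have f1 : 4 / (p * n) ≤ 1 / 4 := by
    rw [div_le_div_iff₀ hpn (by norm_num)]
    linarith
  have f3 : 4 / (p * s) ≤ 1 / 4 := by
    rw [div_le_div_iff₀ (mul_pos hp hs0) (by norm_num)]
    have h1 : p * n ≤ p * (k * s) := mul_le_mul_of_nonneg_left hs hp.le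
    have h2 : 16 * k ≤ k * (p * s) := by linarith
    have h3 : 16 ≤ p * s := by
      by_contra hcon
      push Not at hcon
      have := mul_lt_mul_of_pos_left hcon hk0
      linarith
    linarith
  have h34 : k ^ 3 * p ≤ k ^ 4 * p := by
    have : k ^ 3 ≤ k ^ 4 := pow_le_pow_right₀ hk (by norm_num)
    exact mul_le_mul_of_nonneg_right this hp.le
  linarith

/-- the sum of the three quotients -/
theorem ex_sum3 {k p n : ℝ} (hk : 1 ≤ k) (hp : 0 < p) (hp4 : 4000 * k ^ 4 * p ≤ 1)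
    (hn : 16 * k ≤ p * n) :
    (p * n) / (p * n / 2) ^ 2 + (4 * k ^ 3 * p * n) / (n / (2 * k)) +
      (k ^ 2 * p * n) / (n / k) < 1 := by
  have h := ex_sum6 (s := n) hk hp hp4 hn (by
    have hn0 : 0 < n := pos_of_mul_pos_right (by linarith : 0 < p * n) hp.le
    exact le_mul_of_one_le_left hn0.le hk)
  have hk0 : 0 < k := by linarith
  have hpn : 0 < p * n := by linarith
  have hn0 : 0 < n := pos_of_mul_pos_right (by linarith : 0 < p * n) hp.le
  have g1 : 0 ≤ (p * n) / (p * n / 2) ^ 2 := by positivity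
  have g2 : 0 ≤ (16 * k ^ 2 * p ^ 2 * n) / (p * n / (4 * k)) := by positivity
  have g3 : 0 ≤ (4 * k ^ 2 * p ^ 2 * n) / (p * n / (40 * k)) := by positivity
  linarith

/-- EXISTENCE of a good hidden set -/
theorem pf_ex (hMO1 : T_MO1) (hMO2 : T_MO2) (hMK : T_MK) (hDT : T_DT) : T_EX := by
  intro Ω _ _ n U p k D htw hk hD hDp hp hn G y hloc
  have hk' : (1 : ℝ) ≤ k := by exact_mod_cast hk
  have hk0 : (0 : ℝ) < k := by linarith
  have hD0 : (0 : ℝ) < D := by exact_mod_cast hD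
  have hp0 : 0 < p := lt_of_lt_of_le (by positivity) hDp
  have hp4 : 4000 * (k : ℝ) ^ 4 * p ≤ 1 := by
    rw [le_div_iff₀ (by positivity)] at hp
    linarith
  have hk4 : (1 : ℝ) ≤ (k : ℝ) ^ 4 := one_le_pow₀ hk'
  have hp1 : p ≤ 1 / 4 := by nlinarith
  have hp1' : p ≤ 1 := by linarith
  have hDp' : (1 : ℝ) ≤ D * p := by
    rw [div_le_iff₀ hD0] at hDp
    linarith
  have hpn : 0 < p * n := by linarith
  have hn0 : (0 : ℝ) < n := pos_of_mul_pos_right hpn hp0.le
  obtain ⟨S, hSd⟩ : ∃ S : Finset (Fin n), ∀ v, v ∈ S ↔ (1 + dg G v : ℤ) ≤ k ^ 2 * ay G y v ^ 2 :=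
    ⟨univ.filter (fun v => (1 + dg G v : ℤ) ≤ k ^ 2 * ay G y v ^ 2), fun v => by simp⟩
  obtain ⟨X, hX⟩ : ∃ X : Ω → Fin n → ℝ, ∀ ω v, X ω v =
      ∑ u ∈ nb G v, ((if u ∈ U ω then (1 : ℝ) else 0) - p) * sgr y u := ⟨_, fun ω v => rfl⟩
  have c1 : ∀ ω, ((#(univ ∩ U ω) : ℝ) - p * #(univ : Finset (Fin n))) ^ 2 ≤ (p * n / 2) ^ 2 →
      n ≤ 2 * D * #(U ω) := by
    intro ω h
    rw [univ_inter, card_univ, Fintype.card_fin] at h
    have h1 := ex_half hpn.le h
    have h2 : (n : ℝ) ≤ 2 * D * #(U ω) := by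
      calc (n : ℝ) ≤ (D * p) * n := le_mul_of_one_le_left hn0.le hDp'
        _ = D * (p * n) := by ring
        _ ≤ D * (2 * #(U ω)) := mul_le_mul_of_nonneg_left (by linarith) hD0.le
        _ = _ := by ring
    exact_mod_cast h2
  have c2 : ∀ ω, (#(univ.filter (fun v => 1 + dg G v < 4 * k ^ 3 * gg G (U ω) v)) : ℝ) ≤
      n / (2 * k) → Thin k G (U ω) := by
    intro ω h
    rw [le_div_iff₀ (by positivity)] at h
    unfold Thin
    have h1 : (2 : ℝ) * k * #(univ.filter (fun v => 1 + dg G v < 4 * k ^ 3 * gg G (U ω) v)) ≤ n := by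
      linarith
    exact_mod_cast h1
  have s1 : ∑ ω, ((#(univ ∩ U ω) : ℝ) - p * #(univ : Finset (Fin n))) ^ 2 ≤
      p * n * Fintype.card Ω := by
    have h1 := ex_sum_card hMO1 htw hp0.le hp1' (univ : Finset (Fin n))
    have h2 : (#(univ : Finset (Fin n)) : ℝ) = n := by rw [card_univ, Fintype.card_fin]
    rw [h2] at h1 ⊢
    exact h1
  have s2 := ex_sum_gg htw hp0.le G k
  have s3 := ex_sum_card hMO1 htw hp0.le hp1' S
  have s4 : ∑ ω, (#((U ω).filter (fun v => (1 + dg G v : ℝ) / (16 * k ^ 2) < X ω v ^ 2)) : ℝ) ≤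
      16 * k ^ 2 * p ^ 2 * n * Fintype.card Ω := by
    refine ex_sum_inU hMO2 htw hp0.le hp1' G y (16 * k ^ 2) (by positivity) _ (fun ω v h => ?_)
    rw [hX, div_lt_iff₀ (by positivity)] at h
    linarith
  have s5 : ∑ ω, (#((U ω).filter (fun v => (1 + dg G v : ℝ) / (4 * k ^ 2) ≤ X ω v ^ 2)) : ℝ) ≤
      4 * k ^ 2 * p ^ 2 * n * Fintype.card Ω := by
    refine ex_sum_inU hMO2 htw hp0.le hp1' G y (4 * k ^ 2) (by positivity) _ (fun ω v h => ?_)
    rw [hX, div_le_iff₀ (by positivity)] at h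
    linarith
  have s6 : ∑ ω, (#(univ.filter (fun v => (1 + dg G v : ℝ) / k ^ 2 < X ω v ^ 2)) : ℝ) ≤
      k ^ 2 * p * n * Fintype.card Ω := by
    refine ex_sum_all hMO1 htw hp0.le hp1' G y (k ^ 2) (by positivity) _ (fun ω v h => ?_)
    rw [hX, div_lt_iff₀ (by positivity)] at h
    linarith
  by_cases hc : (n : ℝ) ≤ k * #S
  · have hS0 : (0 : ℝ) < #S := pos_of_mul_pos_right (lt_of_lt_of_le hn0 hc) hk0.le
    obtain ⟨ω, hω⟩ := hMK Ω 6
      ![fun ω => ((#(univ ∩ U ω) : ℝ) - p * #(univ : Finset (Fin n))) ^ 2,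
        fun ω => (#(univ.filter (fun v => 1 + dg G v < 4 * k ^ 3 * gg G (U ω) v)) : ℝ),
        fun ω => ((#(S ∩ U ω) : ℝ) - p * #S) ^ 2,
        fun ω => (#((U ω).filter (fun v => (1 + dg G v : ℝ) / (16 * k ^ 2) < X ω v ^ 2)) : ℝ),
        fun ω => (#((U ω).filter (fun v => (1 + dg G v : ℝ) / (4 * k ^ 2) ≤ X ω v ^ 2)) : ℝ),
        fun ω => (#(univ.filter (fun v => (1 + dg G v : ℝ) / k ^ 2 < X ω v ^ 2)) : ℝ)]
      ![p * n, 4 * k ^ 3 * p * n, p * #S, 16 * k ^ 2 * p ^ 2 * n, 4 * k ^ 2 * p ^ 2 * n,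
        k ^ 2 * p * n]
      ![(p * n / 2) ^ 2, n / (2 * k), (p * #S / 2) ^ 2, p * n / (4 * k), p * n / (40 * k), n / k]
      (by
        intro i ω
        fin_cases i
        · exact sq_nonneg _
        · exact Nat.cast_nonneg _
        · exact sq_nonneg _
        · exact Nat.cast_nonneg _
        · exact Nat.cast_nonneg _
        · exact Nat.cast_nonneg _)
      (by
        intro i
        fin_cases i
        · exact (by positivity : 0 < (p * n / 2) ^ 2)
        · exact (by positivity : 0 < (n : ℝ) / (2 * k))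
        · exact (by positivity : 0 < (p * #S / 2) ^ 2)
        · exact (by positivity : 0 < p * n / (4 * k))
        · exact (by positivity : 0 < p * n / (40 * k))
        · exact (by positivity : 0 < (n : ℝ) / k))
      (by
        intro i
        fin_cases i
        · exact s1
        · exact s2
        · exact s3
        · exact s4
        · exact s5
        · exact s6)
      (by
        rw [Fin.sum_univ_six]
        exact ex_sum6 hk' hp0 hp4 hn hc)
    have t1 := hω 0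
    have t2 := hω 1
    have t3 := hω 2
    have t4 := hω 3
    have t5 := hω 4
    have t6 := hω 5
    refine ⟨ω, c1 ω t1, c2 ω t2, ?_⟩
    refine hDT n (U ω) p k D G y (X ω) S hk hD hDp hp1 hloc (fun v => hX ω v) hSd
      (fun _ => ⟨?_, t4, t5⟩) t6
    exact ex_half (by positivity) t3
  · obtain ⟨ω, hω⟩ := hMK Ω 3
      ![fun ω => ((#(univ ∩ U ω) : ℝ) - p * #(univ : Finset (Fin n))) ^ 2,
        fun ω => (#(univ.filter (fun v => 1 + dg G v < 4 * k ^ 3 * gg G (U ω) v)) : ℝ),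
        fun ω => (#(univ.filter (fun v => (1 + dg G v : ℝ) / k ^ 2 < X ω v ^ 2)) : ℝ)]
      ![p * n, 4 * k ^ 3 * p * n, k ^ 2 * p * n]
      ![(p * n / 2) ^ 2, n / (2 * k), n / k]
      (by
        intro i ω
        fin_cases i
        · exact sq_nonneg _
        · exact Nat.cast_nonneg _
        · exact Nat.cast_nonneg _)
      (by
        intro i
        fin_cases i
        · exact (by positivity : 0 < (p * n / 2) ^ 2)
        · exact (by positivity : 0 < (n : ℝ) / (2 * k))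
        · exact (by positivity : 0 < (n : ℝ) / k))
      (by
        intro i
        fin_cases i
        · exact s1
        · exact s2
        · exact s6)
      (by
        rw [Fin.sum_univ_three]
        exact ex_sum3 hk' hp0 hp4 hn)
    have t1 := hω 0
    have t2 := hω 1
    have t6 := hω 2
    refine ⟨ω, c1 ω t1, c2 ω t2, ?_⟩
    exact hDT n (U ω) p k D G y (X ω) S hk hD hDp hp1 hloc (fun v => hX ω v) hSd
      (fun h => absurd h hc) t6

end Pool.Agent.H4.E0
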