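import Pool.Agent.H88.MC.Targets

/-!
Module RG1: for a random graph a fixed bipartition is balanced with exponentially small
probability.
-/

namespace Pool.Agent.H4.E0

open Finset Pool.Agent.H88.MC

/-- gluing a graph without cross edges and a family of cross neighbourhoods -/
def rgPsi {n : ℕ} (V1 V2 : Finset (Fin n)) (H : SimpleGraph (Fin n))
    (N : Fin n → Finset (Fin n)) : SimpleGraph (Fin n) :=
  H ⊔ SimpleGraph.fromRel (fun u v => u ∈ V1 ∧ v ∈ V2 ∧ v ∈ N u)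

theorem rgPsi_adj {n : ℕ} {V1 V2 : Finset (Fin n)} (hd : Disjoint V1 V2)
    (H : SimpleGraph (Fin n)) (N : Fin n → Finset (Fin n)) (u v : Fin n) :
    (rgPsi V1 V2 H N).Adj u v ↔ H.Adj u v ∨ (u ∈ V1 ∧ v ∈ V2 ∧ v ∈ N u) ∨
      (v ∈ V1 ∧ u ∈ V2 ∧ u ∈ N v) := by
  unfold rgPsi
  rw [SimpleGraph.sup_adj, SimpleGraph.fromRel_adj]
  constructor
  · rintro (h | ⟨-, h⟩)
    · exact Or.inl h
    · exact Or.inr h
  · rintro (h | h)
    · exact Or.inl h
    · refine Or.inr ⟨?_, h⟩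
      rintro rfl
      rcases h with ⟨h1, h2, -⟩ | ⟨h1, h2, -⟩
      · exact (disjoint_left.1 hd) h1 h2
      · exact (disjoint_left.1 hd) h1 h2

theorem rg_mem_nb {n : ℕ} (G : SimpleGraph (Fin n)) (u v : Fin n) : u ∈ nb G v ↔ G.Adj v u := by
  unfold nb
  simp

/-- the family of possible cross neighbourhoods -/
def rgT {n : ℕ} (V1 V2 : Finset (Fin n)) (v : Fin n) : Finset (Finset (Fin n)) :=
  if v ∈ V1 then V2.powerset else {∅}

theorem rg_mem_T {n : ℕ} {V1 V2 : Finset (Fin n)} {N : Fin n → Finset (Fin n)}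
    (hN : N ∈ Fintype.piFinset (rgT V1 V2)) : (∀ v ∈ V1, N v ⊆ V2) ∧ (∀ v, v ∉ V1 → N v = ∅) := by
  rw [Fintype.mem_piFinset] at hN
  constructor
  · intro v hv
    have h := hN v
    unfold rgT at h
    rw [if_pos hv, mem_powerset] at h
    exact h
  · intro v hv
    have h := hN v
    unfold rgT at h
    rw [if_neg hv, mem_singleton] at h
    exact h

theorem rg_nb_psi {n : ℕ} {V1 V2 : Finset (Fin n)} (hd : Disjoint V1 V2)
    {H : SimpleGraph (Fin n)} {N : Fin n → Finset (Fin n)}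
    (hN : N ∈ Fintype.piFinset (rgT V1 V2)) {v : Fin n} (hv : v ∈ V1) :
    nb (rgPsi V1 V2 H N) v = nb H v ∪ N v := by
  obtain ⟨hN1, -⟩ := rg_mem_T hN
  ext u
  rw [rg_mem_nb, rgPsi_adj hd, mem_union, rg_mem_nb]
  constructor
  · rintro (h | ⟨-, -, h⟩ | ⟨-, h, -⟩)
    · exact Or.inl h
    · exact Or.inr h
    · exact absurd h (disjoint_left.1 hd hv)
  · rintro (h | h)
    · exact Or.inl h
    · exact Or.inr (Or.inl ⟨hv, hN1 v hv h, h⟩)

theorem rg_surj {n : ℕ} {V1 V2 : Finset (Fin n)} (hd : Disjoint V1 V2) (G : SimpleGraph (Fin n)) :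
    ∃ H : SimpleGraph (Fin n), (∀ u ∈ V1, ∀ v ∈ V2, ¬ H.Adj u v) ∧
      ∃ N ∈ Fintype.piFinset (rgT V1 V2), rgPsi V1 V2 H N = G := by
  classical
  refine ⟨SimpleGraph.fromRel (fun u v => G.Adj u v ∧ ¬ (u ∈ V1 ∧ v ∈ V2) ∧ ¬ (v ∈ V1 ∧ u ∈ V2)),
    ?_, fun v => if v ∈ V1 then nb G v ∩ V2 else ∅, ?_, ?_⟩
  · intro u hu v hv h
    rw [SimpleGraph.fromRel_adj] at h
    rcases h.2 with h1 | h1
    · exact h1.2.1 ⟨hu, hv⟩
    · exact h1.2.2 ⟨hu, hv⟩
  · rw [Fintype.mem_piFinset]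
    intro v
    unfold rgT
    split_ifs with h
    · exact mem_powerset.2 inter_subset_right
    · exact mem_singleton_self _
  · ext u v
    rw [rgPsi_adj hd, SimpleGraph.fromRel_adj]
    constructor
    · rintro (⟨-, h | h⟩ | ⟨h1, h2, h3⟩ | ⟨h1, h2, h3⟩)
      · exact h.1
      · exact h.1.symm
      · rw [if_pos h1, mem_inter, rg_mem_nb] at h3
        exact h3.1
      · rw [if_pos h1, mem_inter, rg_mem_nb] at h3
        exact h3.1.symm
    · intro h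
      by_cases h1 : u ∈ V1 ∧ v ∈ V2
      · right
        left
        refine ⟨h1.1, h1.2, ?_⟩
        rw [if_pos h1.1, mem_inter, rg_mem_nb]
        exact ⟨h, h1.2⟩
      by_cases h2 : v ∈ V1 ∧ u ∈ V2
      · right
        right
        refine ⟨h2.1, h2.2, ?_⟩
        rw [if_pos h2.1, mem_inter, rg_mem_nb]
        exact ⟨h.symm, h2.2⟩
      · left
        exact ⟨h.ne, Or.inl ⟨h, h1, h2⟩⟩

theorem rg_inj {n : ℕ} {V1 V2 : Finset (Fin n)} (hd : Disjoint V1 V2)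
    {H H' : SimpleGraph (Fin n)} {N N' : Fin n → Finset (Fin n)}
    (hH : ∀ u ∈ V1, ∀ v ∈ V2, ¬ H.Adj u v) (hH' : ∀ u ∈ V1, ∀ v ∈ V2, ¬ H'.Adj u v)
    (hN : N ∈ Fintype.piFinset (rgT V1 V2)) (hN' : N' ∈ Fintype.piFinset (rgT V1 V2))
    (h : rgPsi V1 V2 H N = rgPsi V1 V2 H' N') : H = H' ∧ N = N' := by
  have hA : ∀ u v, (H.Adj u v ∨ (u ∈ V1 ∧ v ∈ V2 ∧ v ∈ N u) ∨ (v ∈ V1 ∧ u ∈ V2 ∧ u ∈ N v)) ↔
      (H'.Adj u v ∨ (u ∈ V1 ∧ v ∈ V2 ∧ v ∈ N' u) ∨ (v ∈ V1 ∧ u ∈ V2 ∧ u ∈ N' v)) := by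
    intro u v
    rw [← rgPsi_adj hd, ← rgPsi_adj hd, h]
  obtain ⟨hN1, hN2⟩ := rg_mem_T hN
  obtain ⟨hN1', hN2'⟩ := rg_mem_T hN'
  constructor
  · ext u v
    by_cases h1 : u ∈ V1 ∧ v ∈ V2
    · exact ⟨fun h => absurd h (hH u h1.1 v h1.2), fun h => absurd h (hH' u h1.1 v h1.2)⟩
    by_cases h2 : v ∈ V1 ∧ u ∈ V2
    · exact ⟨fun h => absurd h.symm (hH v h2.1 u h2.2), fun h => absurd h.symm (hH' v h2.1 u h2.2)⟩
    constructor
    · intro h3
      rcases (hA u v).1 (Or.inl h3) with h4 | h4 | h4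
      · exact h4
      · exact absurd ⟨h4.1, h4.2.1⟩ h1
      · exact absurd ⟨h4.1, h4.2.1⟩ h2
    · intro h3
      rcases (hA u v).2 (Or.inl h3) with h4 | h4 | h4
      · exact h4
      · exact absurd ⟨h4.1, h4.2.1⟩ h1
      · exact absurd ⟨h4.1, h4.2.1⟩ h2
  · funext u
    by_cases hu : u ∈ V1
    · ext v
      constructor
      · intro h3
        have hv := hN1 u hu h3
        rcases (hA u v).1 (Or.inr (Or.inl ⟨hu, hv, h3⟩)) with h4 | h4 | h4
        · exact absurd h4 (hH' u hu v hv)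
        · exact h4.2.2
        · exact absurd h4.2.1 (disjoint_left.1 hd hu)
      · intro h3
        have hv := hN1' u hu h3
        rcases (hA u v).2 (Or.inr (Or.inl ⟨hu, hv, h3⟩)) with h4 | h4 | h4
        · exact absurd h4 (hH u hu v hv)
        · exact h4.2.2
        · exact absurd h4.2.1 (disjoint_left.1 hd hu)
    · rw [hN2 u hu, hN2' u hu]

/-- size of the family of possible cross neighbourhoods -/
theorem rg_card_T {n : ℕ} (V1 V2 : Finset (Fin n)) :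
    #(Fintype.piFinset (rgT V1 V2)) = (2 ^ #V2) ^ #V1 := by
  rw [Fintype.card_piFinset]
  have h : ∀ v, #(rgT V1 V2 v) = if v ∈ V1 then 2 ^ #V2 else 1 := by
    intro v
    unfold rgT
    split_ifs
    · exact card_powerset _
    · exact card_singleton _
  rw [prod_congr rfl (fun v _ => h v), prod_ite_mem, univ_inter, prod_const]

/-- the exponential moment bound -/
theorem rg_key {n : ℕ} {V1 V2 : Finset (Fin n)} (hd : Disjoint V1 V2) (y : Fin n → Bool)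
    (c r : ℝ) (hc : 0 ≤ c) (hr : r = c * Real.sqrt n)
    (hac : ∀ x : ℤ, (#{A ∈ V2.powerset | |(x : ℝ) + ∑ u ∈ A, sgr y u| ≤ r} : ℝ) ≤ 2 ^ #V2 / 32)
    (H : SimpleGraph (Fin n)) (hH : ∀ u ∈ V1, ∀ v ∈ V2, ¬ H.Adj u v)
    (Q : (Fin n → Finset (Fin n)) → Prop) [DecidablePred Q]
    (hQ : ∀ N, Q N → Bal c (rgPsi V1 V2 H N) y) :
    (#{N ∈ Fintype.piFinset (rgT V1 V2) | Q N} : ℝ) * (32 : ℝ) ^ ((#V1 : ℝ) - c * n) ≤
      2 ^ #V1 * #(Fintype.piFinset (rgT V1 V2)) := by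
  classical
  obtain ⟨x, hx⟩ : ∃ x : Fin n → ℤ, ∀ v, x v = ∑ u ∈ nb H v, sg (y u) := ⟨_, fun v => rfl⟩
  obtain ⟨w, hw⟩ : ∃ w : Fin n → Finset (Fin n) → ℝ, ∀ v A, w v A =
      if v ∈ V1 ∧ |(x v : ℝ) + ∑ u ∈ A, sgr y u| ≤ r then 32 else 1 := ⟨_, fun v A => rfl⟩
  have hw0 : ∀ v A, 0 ≤ w v A := by
    intro v A
    rw [hw]
    split_ifs <;> norm_num
  have hay : ∀ N ∈ Fintype.piFinset (rgT V1 V2), ∀ v ∈ V1,
      ((ay (rgPsi V1 V2 H N) y v : ℤ) : ℝ) = (x v : ℝ) + ∑ u ∈ N v, sgr y u := by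
    intro N hN v hv
    have hdis : Disjoint (nb H v) (N v) := by
      rw [disjoint_left]
      intro u hu1 hu2
      exact hH v hv u ((rg_mem_T hN).1 v hv hu2) ((rg_mem_nb H u v).1 hu1)
    unfold ay
    rw [rg_nb_psi hd hN hv, sum_union hdis, hx]
    push_cast
    congr 1
    refine sum_congr rfl (fun u _ => ?_)
    unfold sg sgr
    split_ifs <;> norm_num
  have hdgn : ∀ (G : SimpleGraph (Fin n)) (v : Fin n), (1 + dg G v : ℝ) ≤ n := by
    intro G v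
    have h1 : dg G v < n := by
      unfold dg
      have h2 : nb G v ⊂ univ := by
        rw [ssubset_univ_iff]
        intro h3
        have h4 : v ∈ nb G v := h3 ▸ mem_univ v
        rw [rg_mem_nb] at h4
        exact G.irrefl h4
      have h5 := card_lt_card h2
      rwa [card_univ, Fintype.card_fin] at h5
    have h2 : 1 + dg G v ≤ n := by omega
    exact_mod_cast h2
  -- every member has large weight
  have hbig : ∀ N ∈ (Fintype.piFinset (rgT V1 V2)).filter Q,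
      (32 : ℝ) ^ ((#V1 : ℝ) - c * n) ≤ ∏ v, w v (N v) := by
    intro N hN
    obtain ⟨hN1, hN2⟩ := mem_filter.1 hN
    have hb := hQ N hN2
    unfold Bal at hb
    have h1 : ∏ v, w v (N v) =
        (32 : ℝ) ^ #{v ∈ V1 | |(x v : ℝ) + ∑ u ∈ N v, sgr y u| ≤ r} := by
      have h2 : ∀ v, w v (N v) =
          if v ∈ V1.filter (fun v => |(x v : ℝ) + ∑ u ∈ N v, sgr y u| ≤ r) then 32 else 1 := by
        intro v
        rw [hw]
        simp only [mem_filter]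
      rw [prod_congr rfl (fun v _ => h2 v), prod_ite_mem, univ_inter, prod_const]
    have h3 : V1 ⊆ V1.filter (fun v => |(x v : ℝ) + ∑ u ∈ N v, sgr y u| ≤ r) ∪
        univ.filter (fun v => c ^ 2 * (1 + dg (rgPsi V1 V2 H N) v) <
          (ay (rgPsi V1 V2 H N) y v : ℝ) ^ 2) := by
      intro v hv
      rw [mem_union, mem_filter, mem_filter]
      by_cases h4 : c ^ 2 * (1 + dg (rgPsi V1 V2 H N) v) < (ay (rgPsi V1 V2 H N) y v : ℝ) ^ 2
      · exact Or.inr ⟨mem_univ v, h4⟩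
      · left
        refine ⟨hv, ?_⟩
        rw [← hay N hN1 v hv]
        have h5 : (ay (rgPsi V1 V2 H N) y v : ℝ) ^ 2 ≤ r ^ 2 := by
          rw [hr, mul_pow, Real.sq_sqrt (Nat.cast_nonneg n)]
          exact (not_lt.1 h4).trans (mul_le_mul_of_nonneg_left (hdgn _ v) (sq_nonneg c))
        have hr0 : 0 ≤ r := by
          rw [hr]
          positivity
        exact abs_le_of_sq_le_sq h5 hr0
    have h4 := (card_le_card h3).trans (card_union_le _ _)
    have h5 : (#V1 : ℝ) ≤ #(V1.filter (fun v => |(x v : ℝ) + ∑ u ∈ N v, sgr y u| ≤ r)) +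
        #(univ.filter (fun v => c ^ 2 * (1 + dg (rgPsi V1 V2 H N) v) <
          (ay (rgPsi V1 V2 H N) y v : ℝ) ^ 2)) := by exact_mod_cast h4
    rw [h1, ← Real.rpow_natCast]
    refine Real.rpow_le_rpow_of_exponent_le (by norm_num) ?_
    linarith
  -- total weight
  have htot : ∑ N ∈ Fintype.piFinset (rgT V1 V2), ∏ v, w v (N v) ≤
      2 ^ #V1 * #(Fintype.piFinset (rgT V1 V2)) := by
    rw [← prod_univ_sum, rg_card_T]
    have h1 : ∀ v, ∑ A ∈ rgT V1 V2 v, w v A ≤ if v ∈ V1 then 2 * 2 ^ #V2 else 1 := by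
      intro v
      unfold rgT
      by_cases hv : v ∈ V1
      · rw [if_pos hv, if_pos hv]
        have h2 : ∀ A ∈ V2.powerset, w v A ≤
            1 + 32 * (if |(x v : ℝ) + ∑ u ∈ A, sgr y u| ≤ r then (1 : ℝ) else 0) := by
          intro A _
          rw [hw]
          by_cases h3 : |(x v : ℝ) + ∑ u ∈ A, sgr y u| ≤ r
          · rw [if_pos ⟨hv, h3⟩, if_pos h3]
            norm_num
          · rw [if_neg (fun h => h3 h.2), if_neg h3]
            norm_num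
        refine (sum_le_sum h2).trans ?_
        rw [sum_add_distrib, ← mul_sum, sum_const, card_powerset, nsmul_eq_mul, mul_one,
          ← sum_filter, sum_const, nsmul_eq_mul, mul_one]
        have h3 := hac (x v)
        push_cast
        linarith
      · rw [if_neg hv, if_neg hv, sum_singleton, hw, if_neg (fun h => hv h.1)]
    refine (prod_le_prod (fun v _ => sum_nonneg (fun A _ => hw0 v A)) (fun v _ => h1 v)).trans ?_
    rw [prod_ite_mem, univ_inter, prod_const, mul_pow]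
    push_cast
    exact le_rfl
  calc (#{N ∈ Fintype.piFinset (rgT V1 V2) | Q N} : ℝ) * (32 : ℝ) ^ ((#V1 : ℝ) - c * n) =
        ∑ N ∈ (Fintype.piFinset (rgT V1 V2)).filter Q, (32 : ℝ) ^ ((#V1 : ℝ) - c * n) := by
        rw [sum_const, nsmul_eq_mul]
    _ ≤ ∑ N ∈ (Fintype.piFinset (rgT V1 V2)).filter Q, ∏ v, w v (N v) := sum_le_sum hbig
    _ ≤ ∑ N ∈ Fintype.piFinset (rgT V1 V2), ∏ v, w v (N v) :=
        sum_le_sum_of_subset_of_nonneg (filter_subset _ _)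
          (fun N _ _ => prod_nonneg (fun v _ => hw0 v _))
    _ ≤ _ := htot

theorem rg_card_lt {n m : ℕ} (h : m ≤ n) : #(univ.filter (fun v : Fin n => v.1 < m)) = m := by
  have h1 : univ.filter (fun v : Fin n => v.1 < m) =
      (univ : Finset (Fin m)).map (Fin.castLEEmb h) := by
    ext v
    rw [mem_filter, mem_map]
    constructor
    · rintro ⟨-, hv⟩
      exact ⟨⟨v.1, hv⟩, mem_univ _, Fin.ext rfl⟩
    · rintro ⟨u, -, rfl⟩
      exact ⟨mem_univ _, u.2⟩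
  rw [h1, card_map, card_univ, Fintype.card_fin]

open scoped Classical in
/-- for a random graph a fixed bipartition is balanced with exponentially small probability -/
theorem pf_rg1 (hAC : T_AC) : T_RG1 := by
  refine ⟨1 / 200, by norm_num, 10000, fun n hn y => ?_⟩
  obtain ⟨V1, hV1⟩ : ∃ V1 : Finset (Fin n), V1 = univ.filter (fun v : Fin n => v.1 < n / 2) :=
    ⟨_, rfl⟩
  obtain ⟨V2, hV2⟩ : ∃ V2 : Finset (Fin n), V2 = univ.filter (fun v : Fin n => ¬ v.1 < n / 2) :=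
    ⟨_, rfl⟩
  have hd : Disjoint V1 V2 := by
    rw [hV1, hV2]
    exact disjoint_filter_filter_not _ _ _
  have hc1 : #V1 = n / 2 := by
    rw [hV1]
    exact rg_card_lt (Nat.div_le_self n 2)
  have hc2 : #V1 + #V2 = n := by
    have h1 : #V1 + #V2 = #(univ : Finset (Fin n)) := by
      rw [hV1, hV2]
      exact card_filter_add_card_filter_not _
    rw [h1, card_univ, Fintype.card_fin]
  have hnR : (10000 : ℝ) ≤ n := by exact_mod_cast hn
  have hL : (n : ℝ) - 1 ≤ 2 * #V1 := by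
    have h1 : n ≤ 2 * #V1 + 1 := by omega
    have h2 : (n : ℝ) ≤ 2 * #V1 + 1 := by exact_mod_cast h1
    linarith
  have hM : (n : ℝ) ≤ 2 * #V2 := by
    have h1 : n ≤ 2 * #V2 := by omega
    exact_mod_cast h1
  obtain ⟨s, hs⟩ : ∃ s : ℝ, s = Real.sqrt n := ⟨_, rfl⟩
  have hs2 : s ^ 2 = n := by rw [hs, Real.sq_sqrt (Nat.cast_nonneg n)]
  have hs100 : 100 ≤ s := by
    rw [hs]
    apply Real.le_sqrt_of_sq_le
    linarith
  have hac : ∀ x : ℤ, (#{A ∈ V2.powerset | |(x : ℝ) + ∑ u ∈ A, sgr y u| ≤ 1 / 200 * s} : ℝ) ≤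
      2 ^ #V2 / 32 := by
    intro x
    refine (hAC n V2 y x (1 / 200 * s) (by linarith)).trans ?_
    have h1 : 7 / 10 * s ≤ Real.sqrt ((#V2 : ℝ) + 1) := by
      apply Real.le_sqrt_of_sq_le
      rw [mul_pow, hs2]
      linarith
    have h2 : 0 < Real.sqrt ((#V2 : ℝ) + 1) := by linarith
    rw [div_le_div_iff₀ h2 (by norm_num)]
    have h3 : (2 * (1 / 200 * s) + 1) * 32 ≤ Real.sqrt ((#V2 : ℝ) + 1) := by linarith
    calc (2 * (1 / 200 * s) + 1) * 2 ^ #V2 * 32 = 2 ^ #V2 * ((2 * (1 / 200 * s) + 1) * 32) := by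
          ring
      _ ≤ 2 ^ #V2 * Real.sqrt ((#V2 : ℝ) + 1) := mul_le_mul_of_nonneg_left h3 (by positivity)
  obtain ⟨P, hP⟩ : ∃ P : Finset (Fin n → Finset (Fin n)), P = Fintype.piFinset (rgT V1 V2) :=
    ⟨_, rfl⟩
  obtain ⟨B, hB⟩ : ∃ B : Finset (SimpleGraph (Fin n)),
      B = univ.filter (fun H => ∀ u ∈ V1, ∀ v ∈ V2, ¬ H.Adj u v) := ⟨_, rfl⟩
  have hBm : ∀ H, H ∈ B ↔ ∀ u ∈ V1, ∀ v ∈ V2, ¬ H.Adj u v := by
    intro H
    rw [hB, mem_filter]
    simp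
  obtain ⟨κ, hκ⟩ : ∃ κ : ℝ, κ = 2 ^ #V1 / (32 : ℝ) ^ ((#V1 : ℝ) - 1 / 200 * n) := ⟨_, rfl⟩
  have hκ0 : 0 < (32 : ℝ) ^ ((#V1 : ℝ) - 1 / 200 * n) := Real.rpow_pos_of_pos (by norm_num) _
  have hfib : ∀ H ∈ B, (#(P.filter (fun N => Bal (1 / 200) (rgPsi V1 V2 H N) y)) : ℝ) ≤
      κ * #P := by
    intro H hH
    have h1 := rg_key hd y (1 / 200) (1 / 200 * s) (by norm_num) (by rw [hs]) hac H
      ((hBm H).1 hH) (fun N => Bal (1 / 200) (rgPsi V1 V2 H N) y) (fun N h => h)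
    rw [← hP] at h1
    rw [hκ, div_mul_eq_mul_div, le_div_iff₀ hκ0]
    exact h1
  have hsurj : #(univ.filter (fun G : SimpleGraph (Fin n) => Bal (1 / 200) G y)) ≤
      #((B ×ˢ P).filter (fun q => Bal (1 / 200) (rgPsi V1 V2 q.1 q.2) y)) := by
    have h1 : univ.filter (fun G : SimpleGraph (Fin n) => Bal (1 / 200) G y) ⊆
        ((B ×ˢ P).filter (fun q => Bal (1 / 200) (rgPsi V1 V2 q.1 q.2) y)).image
          (fun q => rgPsi V1 V2 q.1 q.2) := by
      intro G hG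
      obtain ⟨H, hH, N, hN, hG2⟩ := rg_surj hd G
      refine mem_image.2 ⟨(H, N), ?_, hG2⟩
      rw [mem_filter, mem_product]
      refine ⟨⟨(hBm H).2 hH, hP ▸ hN⟩, ?_⟩
      rw [hG2]
      exact (mem_filter.1 hG).2
    exact (card_le_card h1).trans card_image_le
  have hsum : #((B ×ˢ P).filter (fun q => Bal (1 / 200) (rgPsi V1 V2 q.1 q.2) y)) =
      ∑ H ∈ B, #(P.filter (fun N => Bal (1 / 200) (rgPsi V1 V2 H N) y)) := by
    rw [card_filter, sum_product]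
    refine sum_congr rfl (fun H _ => ?_)
    rw [card_filter]
  have hinj : #B * #P ≤ Fintype.card (SimpleGraph (Fin n)) := by
    rw [← card_product, ← card_univ]
    refine card_le_card_of_injOn (fun q => rgPsi V1 V2 q.1 q.2) (fun _ _ => mem_univ _) ?_
    rintro ⟨H, N⟩ h1 ⟨H', N'⟩ h2 h3
    rw [mem_coe, mem_product] at h1 h2
    obtain ⟨h4, h5⟩ := rg_inj hd ((hBm H).1 h1.1) ((hBm H').1 h2.1) (hP ▸ h1.2) (hP ▸ h2.2) h3
    exact Prod.ext h4 h5
  have hκ2 : κ ≤ 2 ^ (-(2 * (1 / 200) * (n : ℝ))) := by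
    have h1 : (32 : ℝ) ^ ((#V1 : ℝ) - 1 / 200 * n) = 2 ^ (5 * ((#V1 : ℝ) - 1 / 200 * n)) := by
      rw [Real.rpow_mul (by norm_num)]
      norm_num
    rw [hκ, h1, ← Real.rpow_natCast 2 #V1, ← Real.rpow_sub (by norm_num)]
    refine Real.rpow_le_rpow_of_exponent_le (by norm_num) ?_
    linarith
  have hκ1 : 0 ≤ κ := by
    rw [hκ]
    positivity
  calc (#(univ.filter (fun G : SimpleGraph (Fin n) => Bal (1 / 200) G y)) : ℝ) ≤
        ∑ H ∈ B, (#(P.filter (fun N => Bal (1 / 200) (rgPsi V1 V2 H N) y)) : ℝ) := by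
        rw [hsum] at hsurj
        exact_mod_cast hsurj
    _ ≤ ∑ H ∈ B, κ * #P := sum_le_sum hfib
    _ = κ * ((#B * #P : ℕ) : ℝ) := by
        rw [sum_const, nsmul_eq_mul]
        push_cast
        ring
    _ ≤ κ * Fintype.card (SimpleGraph (Fin n)) :=
        mul_le_mul_of_nonneg_left (by exact_mod_cast hinj) hκ1
    _ ≤ _ := mul_le_mul_of_nonneg_right hκ2 (Nat.cast_nonneg _)

end Pool.Agent.H4.E0
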